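import Mathlib
import Pool.Agent.Q18.Wr

namespace Pool.Agent.Results.MP_c522d4_al.ZeroProportion

/-- `χ` is the character of an irreducible complex representation of `G`. -/
def IsIrrChar {G : Type} [Group G] (χ : G → ℂ) : Prop :=
  ∃ (n : ℕ) (ρ : Representation ℂ G (Fin n → ℂ)), ρ.IsIrreducible ∧ ρ.character = χ

/-- `Irr(G)` -/
abbrev Irr (G : Type) [Group G] : Type := {χ : G → ℂ // IsIrrChar χ}

/-- `Σ'(G)`: the proportion of zero entries in the character table of `G`. -/
noncomputable def zeroProportion (G : Type) [Group G] : ℝ :=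
  (Nat.card {q : ConjClasses G × Irr G // ∀ g ∈ q.1.carrier, q.2.1 g = 0} : ℝ) /
    ((Nat.card (ConjClasses G) : ℝ) * (Nat.card (Irr G) : ℝ))

/-- The Fitting subgroup `F(G)`: generated by all normal nilpotent subgroups. -/
def fitting (G : Type) [Group G] : Subgroup G :=
  sSup {N : Subgroup G | N.Normal ∧ Group.IsNilpotent N}

theorem map_fitting_le {G H : Type} [Group G] [Group H] (f : G →* H)
    (hf : Function.Surjective f) : (fitting G).map f ≤ fitting H := by
  rw [Subgroup.map_le_iff_le_comap]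
  apply sSup_le
  rintro N ⟨hN, hNn⟩
  rw [← Subgroup.map_le_iff_le_comap]
  apply le_sSup
  refine ⟨hN.map f hf, ?_⟩
  exact Group.nilpotent_of_surjective (f.subgroupMap N) (f.subgroupMap_surjective N)

instance fitting_normal (G : Type) [Group G] : (fitting G).Normal := by
  constructor
  intro x hx g
  have h := map_fitting_le (MulAut.conj g).toMonoidHom (MulAut.conj g).surjective
  exact h ⟨x, hx, rfl⟩

/-- The Fitting series `F_0 = 1`, `F_{i+1} / F_i = F(G / F_i)`, as a sequence of normal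
subgroups. -/
def fitSeries (G : Type) [Group G] : ℕ → {N : Subgroup G // N.Normal}
  | 0 => ⟨⊥, inferInstance⟩
  | n + 1 =>
    have := (fitSeries G n).2
    ⟨(fitting (G ⧸ (fitSeries G n).1)).comap (QuotientGroup.mk' (fitSeries G n).1), inferInstance⟩

/-- The Fitting height: the least `i` with `F_i = G` (`⊤` if there is none, which does not happen
for finite solvable groups). -/
noncomputable def fittingHeight (G : Type) [Group G] : ℕ∞ :=
  sInf {n : ℕ∞ | ∃ i : ℕ, n = i ∧ (fitSeries G i).1 = ⊤}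

theorem le_fittingHeight_iff {G : Type} [Group G] (N : ℕ) : (N : ℕ∞) ≤ fittingHeight G ↔
    ∀ i : ℕ, (fitSeries G i).1 = ⊤ → N ≤ i := by
  unfold fittingHeight
  rw [le_sInf_iff]
  constructor
  · intro h i hi
    exact_mod_cast h i ⟨i, rfl, hi⟩
  · rintro h _ ⟨i, rfl, hi⟩
    exact_mod_cast h i hi

theorem fitSeries_succ_le {G H : Type} [Group G] [Group H] (f : G →* H)
    (hf : Function.Surjective f) (i j : ℕ)
    (h : (fitSeries G i).1 ≤ (fitSeries H j).1.comap f) :
    (fitSeries G (i + 1)).1 ≤ (fitSeries H (j + 1)).1.comap f := by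
  have := (fitSeries G i).2
  have := (fitSeries H j).2
  intro x hx
  change QuotientGroup.mk' (fitSeries G i).1 x ∈ fitting (G ⧸ (fitSeries G i).1) at hx
  change QuotientGroup.mk' (fitSeries H j).1 (f x) ∈ fitting (H ⧸ (fitSeries H j).1)
  let F : G ⧸ (fitSeries G i).1 →* H ⧸ (fitSeries H j).1 :=
    QuotientGroup.map _ _ f h
  have hF : Function.Surjective F := by
    intro y
    obtain ⟨y, rfl⟩ := QuotientGroup.mk'_surjective _ y
    obtain ⟨x, rfl⟩ := hf y
    exact ⟨QuotientGroup.mk' _ x, rfl⟩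
  exact map_fitting_le F hF ⟨_, hx, rfl⟩

open Q18

section wr

variable {p : ℕ} {H : Type} [Group H] [hp : Fact p.Prime]

theorem fitting_wr_le [Finite H] (hpH : ¬ p ∣ Nat.card H) :
    fitting (Wr p H) ≤ (Wr.pr : Wr p H →* H).ker := by
  classical
  apply sSup_le
  rintro N ⟨hN, hNn⟩ x hx
  rw [MonoidHom.mem_ker]
  change x.h = 1
  set h := x.h with hh
  obtain ⟨k, hk⟩ := (Subgroup.isNilpotent_iff_lowerCentralSeries N).1 hNn
  let T : Module.End (ZMod p) (H → ZMod p) :=
    { toFun := fun w => Wr.tr h w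
      map_add' := fun _ _ => rfl
      map_smul' := fun _ _ => rfl }
  have hTpow : ∀ (n : ℕ) (w : H → ZMod p), (T ^ n) w = Wr.tr (h ^ n) w := by
    intro n
    induction n with
    | zero => intro w; simp
    | succ n ih =>
      intro w
      rw [pow_succ', Module.End.mul_apply, ih, pow_succ', Wr.tr_mul]
      rfl
  have hcomm : ∀ w : H → ZMod p, x * Wr.bs w * x⁻¹ * (Wr.bs w)⁻¹ = Wr.bs ((T - 1) w) := by
    intro w
    rw [Wr.conj_bs, Wr.bs_inv, Wr.bs_mul]
    congr 1
    rw [LinearMap.sub_apply, Module.End.one_apply, sub_eq_add_neg]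
    rfl
  have hmem : ∀ (k : ℕ) (w : H → ZMod p),
      (Wr.bs (((T - 1) ^ (k + 1)) w) : Wr p H) ∈ N.lowerCentralSeries k := by
    intro k
    induction k with
    | zero =>
      intro w
      rw [zero_add, pow_one, ← hcomm]
      have e : x * Wr.bs w * x⁻¹ * (Wr.bs w)⁻¹ = x * (Wr.bs w * x⁻¹ * (Wr.bs w)⁻¹) := by group
      rw [e]
      exact N.mul_mem hx (hN.conj_mem _ (N.inv_mem hx) _)
    | succ k ih =>
      intro w
      rw [pow_succ' (T - 1) (k + 1), Module.End.mul_apply, ← hcomm]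
      have h1 := Subgroup.commutator_mem_commutator (ih w) hx
      have h2 := Subgroup.inv_mem _ h1
      rw [commutatorElement_inv] at h2
      exact h2
  have hzero : (T - 1) ^ (k + 1) = 0 := by
    ext1
    rename_i j
    ext1
    have h1 := hmem k (Pi.single j 1)
    rw [hk, Subgroup.mem_bot] at h1
    have h2 := congrArg Wr.v h1
    change ((T - 1) ^ (k + 1)) (Pi.single j 1) = 0 at h2
    simpa using h2
  have hchar : CharP (Module.End (ZMod p) (H → ZMod p)) p :=
    charP_of_injective_algebraMap (R := ZMod p) (by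
      intro a b hab
      have h1 := congrFun (congrArg (fun f : Module.End (ZMod p) (H → ZMod p) =>
        f (fun _ => (1 : ZMod p))) hab) (1 : H)
      simpa [Algebra.algebraMap_eq_smul_one] using h1) p
  have hs : T ^ (p ^ (k + 1)) = 1 := by
    have h1 : (T - 1) ^ (p ^ (k + 1)) = 0 := by
      have h2 : k + 1 ≤ p ^ (k + 1) := (Nat.lt_pow_self hp.out.one_lt).le
      obtain ⟨m, hm⟩ := Nat.exists_eq_add_of_le h2
      rw [hm, pow_add, hzero, zero_mul]
    rw [sub_pow_char_pow_of_commute (p := p) (n := k + 1) (x := T) (y := 1) (Commute.one_right _),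
      one_pow, sub_eq_zero] at h1
    exact h1
  have hhp : h ^ (p ^ (k + 1)) = 1 := by
    have h1 := hTpow (p ^ (k + 1)) (Pi.single 1 1)
    rw [hs, Module.End.one_apply] at h1
    have h2 := congrFun h1 (h ^ (p ^ (k + 1)))
    rw [Wr.tr_apply, inv_mul_cancel, Pi.single_eq_same] at h2
    by_contra hne
    rw [Pi.single_eq_of_ne hne] at h2
    exact zero_ne_one h2
  have hord : orderOf h ∣ p ^ (k + 1) := orderOf_dvd_of_pow_eq_one hhp
  have hcop : Nat.Coprime (p ^ (k + 1)) (Nat.card H) :=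
    Nat.Coprime.pow_left _ ((Nat.Prime.coprime_iff_not_dvd hp.out).2 hpH)
  have h1 : orderOf h ∣ 1 := by
    have := Nat.dvd_gcd hord (orderOf_dvd_natCard h)
    rwa [hcop] at this
  exact orderOf_eq_one_iff.1 (Nat.dvd_one.1 h1)

theorem height_wr [Finite H] (hpH : ¬ p ∣ Nat.card H) (N : ℕ)
    (hN : (N : ℕ∞) ≤ fittingHeight H) : ((N + 1 : ℕ) : ℕ∞) ≤ fittingHeight (Wr p H) := by
  rw [le_fittingHeight_iff] at hN ⊢
  have hbase : (fitSeries (Wr p H) 1).1 ≤ (fitSeries H 0).1.comap (Wr.pr : Wr p H →* H) := by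
    intro x hx
    change QuotientGroup.mk' (⊥ : Subgroup (Wr p H)) x ∈ fitting (Wr p H ⧸ (⊥ : Subgroup _)) at hx
    have h1 := map_fitting_le (QuotientGroup.quotientBot (G := Wr p H)).toMonoidHom
      (QuotientGroup.quotientBot (G := Wr p H)).surjective ⟨_, hx, rfl⟩
    have h2 := fitting_wr_le hpH h1
    exact h2
  have hstep : ∀ i, (fitSeries (Wr p H) (i + 1)).1 ≤
      (fitSeries H i).1.comap (Wr.pr : Wr p H →* H) := by
    intro i
    induction i with
    | zero => exact hbase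
    | succ i ih => exact fitSeries_succ_le _ Wr.pr_surjective _ _ ih
  intro i hi
  rcases Nat.eq_zero_or_pos i with rfl | hpos
  · exfalso
    have h1 : (⊥ : Subgroup (Wr p H)) = ⊤ := hi
    have h2 : (Wr.bs (fun _ => (1 : ZMod p)) : Wr p H) ∈ (⊥ : Subgroup (Wr p H)) := by
      rw [h1]; trivial
    have h3 := congrFun (congrArg Wr.v (Subgroup.mem_bot.1 h2)) (1 : H)
    change (1 : ZMod p) = 0 at h3
    exact one_ne_zero h3
  · obtain ⟨j, rfl⟩ : ∃ j, i = j + 1 := ⟨i - 1, by omega⟩
    have h1 := hstep j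
    rw [hi] at h1
    have h2 : (fitSeries H j).1 = ⊤ := by
      rw [eq_top_iff]
      intro y _
      obtain ⟨x, rfl⟩ := Wr.pr_surjective (p := p) y
      exact h1 (Subgroup.mem_top x)
    have := hN j h2
    omega

theorem solvable_wr [Group.IsSolvable H] : Group.IsSolvable (Wr p H) := by
  let f : Multiplicative (H → ZMod p) →* Wr p H :=
    { toFun := fun w => Wr.bs (Multiplicative.toAdd w)
      map_one' := rfl
      map_mul' := fun a b => by rw [Wr.bs_mul]; rfl }
  refine Group.isSolvable_of_ker_le_range f (Wr.pr : Wr p H →* H) ?_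
  intro x hx
  exact ⟨Multiplicative.ofAdd x.v, (Wr.eq_bs x hx).symm⟩

theorem zeroProportion_wr_le [Finite H] (hpH : ¬ p ∣ Nat.card H) :
    zeroProportion (Wr p H) ≤ (Nat.card H : ℝ) ^ 2 / p := by
  classical
  have : Fintype H := Fintype.ofFinite H
  set n := Nat.card H with hn
  have hn1 : 0 < n := Nat.card_pos
  have hp0 : (0 : ℝ) < p := by exact_mod_cast hp.out.pos
  unfold zeroProportion
  by_cases hIrr : Nat.card (Irr (Wr p H)) = 0
  · rw [hIrr]; simp; positivity
  have hIrrpos : 0 < Nat.card (Irr (Wr p H)) := Nat.pos_of_ne_zero hIrr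
  have hfin : Finite (Irr (Wr p H)) := Nat.finite_of_card_ne_zero hIrr
  set K := Nat.card (ConjClasses (Wr p H)) with hK
  set kV := Nat.card {C : ConjClasses (Wr p H) // ∃ w, ConjClasses.mk (Wr.bs w) = C} with hkV
  set kO := Nat.card {C : ConjClasses (Wr p H) // ¬ ∃ w, ConjClasses.mk (Wr.bs w) = C} with hkO
  have hsum : kV + kO = K := by
    rw [hkV, hkO, hK]
    have e := Equiv.sumCompl (fun C : ConjClasses (Wr p H) => ∃ w, ConjClasses.mk (Wr.bs w) = C)
    rw [← Nat.card_congr e, Nat.card_sum]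
  have hzero : Nat.card {q : ConjClasses (Wr p H) × Irr (Wr p H) //
      ∀ g ∈ q.1.carrier, q.2.1 g = 0} ≤ kO * Nat.card (Irr (Wr p H)) := by
    rw [hkO, ← Nat.card_prod]
    let f : {q : ConjClasses (Wr p H) × Irr (Wr p H) // ∀ g ∈ q.1.carrier, q.2.1 g = 0} →
        {C : ConjClasses (Wr p H) // ¬ ∃ w, ConjClasses.mk (Wr.bs w) = C} × Irr (Wr p H) :=
      fun q => (⟨q.1.1, by
        rintro ⟨w, hw⟩
        obtain ⟨⟨C, ⟨χ, hχ⟩⟩, hq⟩ := q
        obtain ⟨m, ρ, hρ, rfl⟩ := hχ
        have h0 := hq (Wr.bs w) (by rw [← hw]; exact ConjClasses.mem_carrier_mk)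
        exact Wr.char_bs_ne_zero hpH ρ hρ w h0⟩, q.1.2)
    refine Nat.card_le_card_of_injective f ?_
    rintro ⟨⟨C, χ⟩, h⟩ ⟨⟨C', χ'⟩, h'⟩ heq
    simp only [f, Prod.mk.injEq, Subtype.mk.injEq] at heq
    obtain ⟨rfl, rfl⟩ := heq
    rfl
  have h1 : K * n ≤ p ^ n + n ^ 2 * p ^ (n - 1) := Wr.card_classes_le
  have h2 : p ^ n ≤ kV * n := Wr.card_base_classes
  have h3 : p ^ n = p * p ^ (n - 1) := by
    rw [← pow_succ']; congr 1; omega
  have hP : (0 : ℝ) < (p : ℝ) ^ (n - 1) := by positivity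
  have hKpos : 0 < K := by
    rcases Nat.eq_zero_or_pos kV with h | h
    · rw [h, zero_mul] at h2
      exact absurd h2 (not_le.2 (pow_pos hp.out.pos n))
    · omega
  have hI : (0 : ℝ) < Nat.card (Irr (Wr p H)) := by exact_mod_cast hIrrpos
  have hKr : (0 : ℝ) < K := by exact_mod_cast hKpos
  rw [div_le_div_iff₀ (mul_pos hKr hI) hp0]
  have h4 : (kO : ℝ) * n ≤ n ^ 2 * p ^ (n - 1) := by
    have : kO * n ≤ n ^ 2 * p ^ (n - 1) := by
      have : (kV + kO) * n ≤ p ^ n + n ^ 2 * p ^ (n - 1) := by rw [hsum]; exact h1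
      nlinarith
    exact_mod_cast this
  have h5 : (p : ℝ) * p ^ (n - 1) ≤ K * n := by
    have : p * p ^ (n - 1) ≤ K * n := by
      rw [← h3]
      exact h2.trans (Nat.mul_le_mul_right _ (by omega))
    exact_mod_cast this
  have hnr : (0 : ℝ) < n := by exact_mod_cast hn1
  have h6 : (kO : ℝ) * p ≤ n ^ 2 * K := by
    have h7 : ((kO : ℝ) * p) * (n * p ^ (n - 1)) ≤ (n ^ 2 * K) * (n * p ^ (n - 1)) := by
      calc ((kO : ℝ) * p) * (n * p ^ (n - 1)) = (kO * n) * (p * p ^ (n - 1)) := by ring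
        _ ≤ (n ^ 2 * p ^ (n - 1)) * (K * n) := by
            apply mul_le_mul h4 h5 (by positivity) (by positivity)
        _ = (n ^ 2 * K) * (n * p ^ (n - 1)) := by ring
    exact le_of_mul_le_mul_right h7 (by positivity)
  calc (Nat.card {q : ConjClasses (Wr p H) × Irr (Wr p H) //
      ∀ g ∈ q.1.carrier, q.2.1 g = 0} : ℝ) * p ≤ (kO * Nat.card (Irr (Wr p H))) * p := by
        apply mul_le_mul_of_nonneg_right _ hp0.le
        exact_mod_cast hzero
    _ = (kO * p) * Nat.card (Irr (Wr p H)) := by ring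
    _ ≤ (n ^ 2 * K) * Nat.card (Irr (Wr p H)) := by
        apply mul_le_mul_of_nonneg_right h6 hI.le
    _ = (n : ℝ) ^ 2 * (K * Nat.card (Irr (Wr p H))) := by ring

end wr

theorem exists_solvable (N : ℕ) : ∃ (H : Type) (_ : Group H) (_ : Finite H),
    Group.IsSolvable H ∧ (N : ℕ∞) ≤ fittingHeight H := by
  induction N with
  | zero => exact ⟨Unit, inferInstance, inferInstance, inferInstance, by simp⟩
  | succ N ih =>
    obtain ⟨H, _, _, hs, hN⟩ := ih
    obtain ⟨p, hp, hpp⟩ := Nat.exists_infinite_primes (Nat.card H + 1)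
    have : Fact p.Prime := ⟨hpp⟩
    have hpH : ¬ p ∣ Nat.card H := fun h => by
      have := Nat.le_of_dvd Nat.card_pos h
      omega
    exact ⟨Wr p H, inferInstance, inferInstance, solvable_wr, height_wr hpH N hN⟩

/-- There are finite solvable groups of arbitrarily large Fitting height whose proportion of
zeros in the character table is arbitrarily small. -/
theorem result : ∀ ε : ℝ, 0 < ε → ∀ N : ℕ, ∃ (G : Type) (_ : Group G) (_ : Finite G),
    Group.IsSolvable G ∧ (N : ℕ∞) ≤ fittingHeight G ∧ zeroProportion G ≤ ε := by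
  intro ε hε N
  obtain ⟨H, _, _, hs, hN⟩ := exists_solvable N
  obtain ⟨m, hm⟩ := exists_nat_ge ((Nat.card H : ℝ) ^ 2 / ε)
  obtain ⟨p, hp, hpp⟩ := Nat.exists_infinite_primes (max (Nat.card H + 1) m)
  have : Fact p.Prime := ⟨hpp⟩
  have hpH : ¬ p ∣ Nat.card H := fun h => by
    have := Nat.le_of_dvd Nat.card_pos h
    have := le_max_left (Nat.card H + 1) m
    omega
  refine ⟨Wr p H, inferInstance, inferInstance, solvable_wr, ?_, ?_⟩
  · refine le_trans ?_ (height_wr hpH N hN)
    exact_mod_cast Nat.le_succ N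
  · refine (zeroProportion_wr_le hpH).trans ?_
    have hmp : (m : ℝ) ≤ p := by exact_mod_cast (le_max_right _ _).trans hp
    have hp0 : (0 : ℝ) < p := by exact_mod_cast hpp.pos
    rw [div_le_iff₀ hp0]
    rw [div_le_iff₀ hε] at hm
    nlinarith

end Pool.Agent.Results.MP_c522d4_al.ZeroProportion
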